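import Pool.Agent.TH381.RM3.Defs

/-!
Machines simulated on numbers: the functions and their class (job 5474).
-/

set_option autoImplicit false

namespace Pool.Agent.TH740.RM3

open Pool.Agent.H584R2.Dg Pool.Agent.W614.Dg Pool.Agent.H539R2 Pool.Agent.TH381.RM

/-- packing of `n` numbers -/
def pk : ℕ → (ℕ → ℕ) → ℕ
  | 0, _ => 0
  | n + 1, f => Nat.pair (f 0) (pk n (fun i => f (i + 1)))

/-- the `i`-th of the packed numbers -/
def up : ℕ → ℕ → ℕ
  | 0, z => z.unpair.1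
  | i + 1, z => up i z.unpair.2

theorem up_pk : ∀ (n : ℕ) (f : ℕ → ℕ) (i : ℕ), i < n → up i (pk n f) = f i
  | 0, _, _, h => absurd h (Nat.not_lt_zero _)
  | n + 1, f, 0, _ => by rw [up, pk, Nat.unpair_pair]
  | n + 1, f, i + 1, h => by
    rw [up, pk, Nat.unpair_pair]
    exact up_pk n (fun i => f (i + 1)) i (Nat.lt_of_succ_lt_succ h)

theorem pk_congr : ∀ (n : ℕ) (f g : ℕ → ℕ), (∀ i < n, f i = g i) → pk n f = pk n g
  | 0, _, _, _ => rfl
  | n + 1, f, g, h => by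
    rw [pk, pk, h 0 (Nat.succ_pos n), pk_congr n (fun i => f (i + 1)) (fun i => g (i + 1))
      (fun i hi => h (i + 1) (Nat.succ_lt_succ hi))]

theorem pair_mono {a b c d : ℕ} (h1 : a ≤ c) (h2 : b ≤ d) : Nat.pair a b ≤ Nat.pair c d := by
  have e1 : Nat.pair a b ≤ Nat.pair c b := by
    rcases h1.eq_or_lt with h | h
    · rw [h]
    · exact (Nat.pair_lt_pair_left b h).le
  have e2 : Nat.pair c b ≤ Nat.pair c d := by
    rcases h2.eq_or_lt with h | h
    · rw [h]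
    · exact (Nat.pair_lt_pair_right c h).le
  exact e1.trans e2

theorem pk_mono : ∀ (n : ℕ) (f g : ℕ → ℕ), (∀ i < n, f i ≤ g i) → pk n f ≤ pk n g
  | 0, _, _, _ => le_rfl
  | n + 1, f, g, h => by
    rw [pk, pk]
    exact pair_mono (h 0 (Nat.succ_pos n)) (pk_mono n _ _
      (fun i hi => h (i + 1) (Nat.succ_lt_succ hi)))

theorem LSup : ∀ (i : ℕ) {f : (ℕ → ℕ) → ℕ}, LS f → LS (fun ρ => up i (f ρ))
  | 0, _, hf => LS.unpair1 hf
  | i + 1, _, hf => LSup i (LS.unpair2 hf)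

theorem LSpk : ∀ (n : ℕ) {F : ℕ → (ℕ → ℕ) → ℕ}, (∀ i, LS (F i)) →
    LS (fun ρ => pk n (fun i => F i ρ))
  | 0, _, _ => LS.zero
  | n + 1, F, h => LS.pair (h 0) (LSpk n (F := fun i => F (i + 1)) (fun i => h (i + 1)))

theorem LStab (F : ℕ → ℕ) {f : (ℕ → ℕ) → ℕ} (hf : LS f) (n : ℕ) :
    LS (fun ρ => if f ρ < n then F (f ρ) else 0) := by
  induction n with
  | zero =>
    refine LS.zero.congr fun ρ => ?_
    rw [if_neg (Nat.not_lt_zero _)]
  | succ n ih =>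
    refine (LS.ite (LSP.eq hf (LS.const n)) (LS.const (F n)) ih).congr fun ρ => ?_
    by_cases h : f ρ = n
    · rw [if_pos h, if_pos (by omega), h]
    · rw [if_neg h]
      by_cases h2 : f ρ < n
      · rw [if_pos h2, if_pos (by omega)]
      · rw [if_neg h2, if_neg (by omega)]

/-- a coded configuration -/
def ent (k s n a : ℕ) (T h : ℕ → ℕ) : ℕ :=
  Nat.pair s (Nat.pair n (Nat.pair a (Nat.pair (pk k T) (pk k h))))

def aS (z : ℕ) : ℕ := z.unpair.1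
def aN (z : ℕ) : ℕ := z.unpair.2.unpair.1
def aA (z : ℕ) : ℕ := z.unpair.2.unpair.2.unpair.1
def aT (i z : ℕ) : ℕ := up i z.unpair.2.unpair.2.unpair.2.unpair.1
def aH (i z : ℕ) : ℕ := up i z.unpair.2.unpair.2.unpair.2.unpair.2

theorem aS_ent (k s n a : ℕ) (T h : ℕ → ℕ) : aS (ent k s n a T h) = s := by
  simp [aS, ent]
theorem aN_ent (k s n a : ℕ) (T h : ℕ → ℕ) : aN (ent k s n a T h) = n := by
  simp [aN, ent]
theorem aA_ent (k s n a : ℕ) (T h : ℕ → ℕ) : aA (ent k s n a T h) = a := by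
  simp [aA, ent]
theorem aT_ent (k s n a : ℕ) (T h : ℕ → ℕ) {i : ℕ} (hi : i < k) :
    aT i (ent k s n a T h) = T i := by
  simp [aT, ent, up_pk k T i hi]
theorem aH_ent (k s n a : ℕ) (T h : ℕ → ℕ) {i : ℕ} (hi : i < k) :
    aH i (ent k s n a T h) = h i := by
  simp [aH, ent, up_pk k h i hi]

theorem ent_mono {k s n a s' n' a' : ℕ} {T h T' h' : ℕ → ℕ} (hs : s ≤ s') (hn : n ≤ n')
    (ha : a ≤ a') (hT : ∀ i < k, T i ≤ T' i) (hh : ∀ i < k, h i ≤ h' i) :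
    ent k s n a T h ≤ ent k s' n' a' T' h' :=
  pair_mono hs (pair_mono hn (pair_mono ha (pair_mono (pk_mono k _ _ hT) (pk_mono k _ _ hh))))

theorem ent_congr {k s n a s' n' a' : ℕ} {T h T' h' : ℕ → ℕ} (hs : s = s') (hn : n = n')
    (ha : a = a') (hT : ∀ i < k, T i = T' i) (hh : ∀ i < k, h i = h' i) :
    ent k s n a T h = ent k s' n' a' T' h' := by
  unfold ent
  rw [hs, hn, ha, pk_congr k _ _ hT, pk_congr k _ _ hh]

section LSacc

variable {f : (ℕ → ℕ) → ℕ} (hf : LS f)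
include hf

theorem LSaS : LS (fun ρ => aS (f ρ)) := LS.unpair1 hf
theorem LSaN : LS (fun ρ => aN (f ρ)) := LS.unpair1 (LS.unpair2 hf)
theorem LSaA : LS (fun ρ => aA (f ρ)) := LS.unpair1 (LS.unpair2 (LS.unpair2 hf))
theorem LSaT (i : ℕ) : LS (fun ρ => aT i (f ρ)) :=
  LSup i (LS.unpair1 (LS.unpair2 (LS.unpair2 (LS.unpair2 hf))))
theorem LSaH (i : ℕ) : LS (fun ρ => aH i (f ρ)) :=
  LSup i (LS.unpair2 (LS.unpair2 (LS.unpair2 (LS.unpair2 hf))))

end LSacc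

theorem LSent (k : ℕ) {s n a : (ℕ → ℕ) → ℕ} {T h : ℕ → (ℕ → ℕ) → ℕ} (hs : LS s) (hn : LS n)
    (ha : LS a) (hT : ∀ i, LS (T i)) (hh : ∀ i, LS (h i)) :
    LS (fun ρ => ent k (s ρ) (n ρ) (a ρ) (fun i => T i ρ) (fun i => h i ρ)) :=
  LS.pair hs (LS.pair hn (LS.pair ha (LS.pair (LSpk k hT) (LSpk k hh))))

/-- coded movement -/
def mvn (d h : ℕ) : ℕ := if d = 0 then h - 1 else if d = 1 then h else h + 1

theorem LSmvn {d h : (ℕ → ℕ) → ℕ} (hd : LS d) (hh : LS h) : LS (fun ρ => mvn (d ρ) (h ρ)) :=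
  LS.ite (LSP.eq hd LS.zero) (hh.sub (LS.const 1)) (LS.ite (LSP.eq hd (LS.const 1)) hh hh.succ)

/-- codes for the states, symbols and letters -/
structure Cod {k : ℕ} {Q : Type} (m : Machine k Q) where
  ns : ℕ
  g : ℕ
  n0 : ℕ
  cs : m.St → ℕ
  ds : ℕ → m.St
  cy : m.Sym → ℕ
  dy : ℕ → m.Sym
  cq : Q → ℕ
  cs_lt : ∀ s, cs s < ns
  ds_cs : ∀ s, ds (cs s) = s
  g2 : 2 ≤ g
  cy_lt : ∀ x, cy x < g
  dy_cy : ∀ x, dy (cy x) = x
  cy_blank : cy m.blank = 0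
  cq_lt : ∀ q, cq q < n0

namespace Cod

variable {k : ℕ} {Q : Type} {m : Machine k Q} (C : Cod m)

/-- what the machine does, for a coded situation -/
def res (w : ℕ) : m.St × (Fin k → m.Sym × Dir) × Option Q :=
  m.δ (C.ds w.unpair.1) (fun i : Fin k => C.dy (up i w.unpair.2))

/-- bound for the coded situations -/
def W : ℕ := Nat.pair C.ns (pk k (fun _ => C.g)) + 1

/-- tables -/
def tab (F : ℕ → ℕ) (w : ℕ) : ℕ := if w < C.W then F w else 0

def f0 (w : ℕ) : ℕ := C.cs (C.res w).1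

def on (o : Option Q) : ℕ := match o with
  | none => 0
  | some _ => 1

def oq (o : Option Q) : ℕ := match o with
  | none => 0
  | some q => C.cq q

def od (d : Dir) : ℕ := match d with
  | .left => 0
  | .stay => 1
  | .right => 2

def f1 (w : ℕ) : ℕ := on (C.res w).2.2

def f2 (w : ℕ) : ℕ := C.oq (C.res w).2.2

def fT (i w : ℕ) : ℕ := if h : i < k then C.cy ((C.res w).2.1 ⟨i, h⟩).1 else 0

def fD (i w : ℕ) : ℕ := if h : i < k then od ((C.res w).2.1 ⟨i, h⟩).2 else 0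

/-- the coded situation -/
def idx (z : ℕ) : ℕ := Nat.pair (aS z) (pk k (fun i => dg C.g (aT i z) (aH i z)))

/-- one step -/
def stepN (X l z : ℕ) : ℕ := if l < aN z then z else
  ent k (C.tab C.f0 (C.idx z)) (aN z + C.tab C.f1 (C.idx z))
    (if C.tab C.f1 (C.idx z) = 0 then min C.n0 (aA z) else C.tab C.f2 (C.idx z))
    (fun i => min X (aT i z - dg C.g (aT i z) (aH i z) * powT X C.g (aH i z) +
      C.tab (C.fT i) (C.idx z) * powT X C.g (aH i z)))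
    (fun i => min X (mvn (C.tab (C.fD i) (C.idx z)) (aH i z)))

theorem LS_tab (F : ℕ → ℕ) {f : (ℕ → ℕ) → ℕ} (hf : LS f) : LS (fun ρ => C.tab F (f ρ)) :=
  LStab F hf C.W

theorem LS_idx {z : (ℕ → ℕ) → ℕ} (hz : LS z) : LS (fun ρ => C.idx (z ρ)) :=
  LS.pair (LSaS hz) (LSpk k (F := fun i ρ => dg C.g (aT i (z ρ)) (aH i (z ρ)))
    (fun i => LS.dg (LS.const C.g) (LSaT hz i) (LSaH hz i)))

theorem LS_stepN {X l z : (ℕ → ℕ) → ℕ} (hX : LS X) (hl : LS l) (hz : LS z) :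
    LS (fun ρ => C.stepN (X ρ) (l ρ) (z ρ)) := by
  have hi := C.LS_idx hz
  refine LS.ite (LSP.lt hl (LSaN hz)) hz (LSent k (C.LS_tab _ hi) ((LSaN hz).add (C.LS_tab _ hi))
    (LS.ite (LSP.eq (C.LS_tab _ hi) LS.zero) (LS.min (LS.const C.n0) (LSaA hz)) (C.LS_tab _ hi))
    (T := fun i ρ => min (X ρ) (aT i (z ρ) - dg C.g (aT i (z ρ)) (aH i (z ρ)) *
      powT (X ρ) C.g (aH i (z ρ)) + C.tab (C.fT i) (C.idx (z ρ)) * powT (X ρ) C.g (aH i (z ρ))))
    (h := fun i ρ => min (X ρ) (mvn (C.tab (C.fD i) (C.idx (z ρ))) (aH i (z ρ)))) ?_ ?_)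
  · intro i
    have hp := LS.powT hX (LS.const C.g) (LSaH hz i)
    exact LS.min hX (((LSaT hz i).sub ((LS.dg (LS.const C.g) (LSaT hz i) (LSaH hz i)).mul hp)).add
      ((C.LS_tab _ hi).mul hp))
  · intro i
    exact LS.min hX (LSmvn (C.LS_tab _ hi) (LSaH hz i))

/-- the beginning -/
def z0 : ℕ := ent k (C.cs m.start) 0 0 (fun _ => 0) (fun _ => 0)

/-- the simulation -/
def simN (X l t : ℕ) : ℕ := nrec C.z0 (fun _ z => C.stepN X l z) t

theorem tab_f0_le (w : ℕ) : C.tab C.f0 w ≤ C.ns := by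
  unfold tab
  split_ifs
  · exact (C.cs_lt _).le
  · exact Nat.zero_le _

theorem on_le (o : Option Q) : on o ≤ 1 := by
  cases o <;> simp [on]

theorem tab_f1_le (w : ℕ) : C.tab C.f1 w ≤ 1 := by
  unfold tab
  split_ifs
  · exact on_le _
  · exact Nat.zero_le _

theorem oq_le (o : Option Q) : C.oq o ≤ C.n0 := by
  cases o with
  | none => exact Nat.zero_le _
  | some q => exact (C.cq_lt q).le

theorem tab_f2_le (w : ℕ) : C.tab C.f2 w ≤ C.n0 := by
  unfold tab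
  split_ifs
  · exact C.oq_le _
  · exact Nat.zero_le _

theorem simN_le (X l : ℕ) : ∀ t : ℕ, C.simN X l t ≤
    ent k C.ns (l + 1) C.n0 (fun _ => X) (fun _ => X) := by
  intro t
  induction t with
  | zero =>
    exact ent_mono (C.cs_lt _).le (Nat.zero_le _) (Nat.zero_le _) (fun _ _ => Nat.zero_le _)
      (fun _ _ => Nat.zero_le _)
  | succ t ih =>
    show C.stepN X l (C.simN X l t) ≤ _
    unfold stepN
    split_ifs with h1 h2
    · exact ih
    · refine ent_mono (C.tab_f0_le _) ?_ (min_le_left _ _) (fun _ _ => min_le_left _ _)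
        (fun _ _ => min_le_left _ _)
      have := C.tab_f1_le (C.idx (C.simN X l t))
      omega
    · refine ent_mono (C.tab_f0_le _) ?_ (C.tab_f2_le _) (fun _ _ => min_le_left _ _)
        (fun _ _ => min_le_left _ _)
      have := C.tab_f1_le (C.idx (C.simN X l t))
      omega

/-- the letter with the number `l` -/
def sg (X l : ℕ) : ℕ := min C.n0 (aA (C.simN X l X))

theorem LS_simN {X l t : (ℕ → ℕ) → ℕ} (hX : LS X) (hl : LS l) (ht : LS t) :
    LS (fun ρ => C.simN (X ρ) (l ρ) (t ρ)) := by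
  refine LS.nrecB (c := t) (a := fun _ => C.z0) (b := fun _ z ρ => C.stepN (X ρ) (l ρ) z)
    (g := fun ρ => ent k C.ns (l ρ + 1) C.n0 (fun _ => X ρ) (fun _ => X ρ)) ht (LS.const _) ?_ ?_ ?_
  · exact C.LS_stepN hX.wk.wk hl.wk.wk (LS.var 0)
  · exact LSent k (LS.const _) hl.succ (LS.const _) (fun _ => hX) (fun _ => hX)
  · intro ρ i _
    exact C.simN_le (X ρ) (l ρ) i

theorem LS_sg : LS (fun ρ => C.sg (ρ 0) (ρ 1)) :=
  LS.min (LS.const _) (LSaA (C.LS_simN (LS.var 0) (LS.var 1) (LS.var 0)))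

theorem sg_le (X l : ℕ) : C.sg X l ≤ C.n0 := min_le_left _ _

end Cod

end Pool.Agent.TH740.RM3
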