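import Pool.Agent.TH740.RM3.Mach1

/-!
Machines simulated on numbers: correctness (job 5474).
-/

set_option autoImplicit false

namespace Pool.Agent.TH740.RM3

open Pool.Agent.H584R2.Dg Pool.Agent.W614.Dg Pool.Agent.H539R2 Pool.Agent.TH381.RM

theorem digs_upd {g R : ℕ} {F F' : ℕ → ℕ} {h : ℕ} (hh : h < R) (hF : ∀ j, j ≠ h → F' j = F j) :
    digs g R F' = digs g R F - F h * g ^ h + F' h * g ^ h := by
  have e1 : F h * g ^ h + ∑ i ∈ (Finset.range R).erase h, F i * g ^ i = digs g R F :=
    Finset.add_sum_erase (Finset.range R) (fun i => F i * g ^ i) (Finset.mem_range.2 hh)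
  have e2 : F' h * g ^ h + ∑ i ∈ (Finset.range R).erase h, F' i * g ^ i = digs g R F' :=
    Finset.add_sum_erase (Finset.range R) (fun i => F' i * g ^ i) (Finset.mem_range.2 hh)
  have e3 : ∑ i ∈ (Finset.range R).erase h, F' i * g ^ i =
      ∑ i ∈ (Finset.range R).erase h, F i * g ^ i :=
    Finset.sum_congr rfl fun i hi => by rw [hF i (Finset.ne_of_mem_erase hi)]
  rw [← e1, ← e2, e3]
  omega

theorem conf_succ {k : ℕ} {Q : Type} (m : Machine k Q) (t : ℕ) :
    m.conf (t + 1) = m.step (m.conf t) := by
  unfold Machine.conf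
  rw [Function.iterate_succ_apply']

theorem conf_add {k : ℕ} {Q : Type} (m : Machine k Q) (a b : ℕ) :
    m.conf (a + b) = m.step^[b] (m.conf a) := by
  unfold Machine.conf
  rw [add_comm, Function.iterate_add_apply]

theorem length_step {k : ℕ} {Q : Type} (m : Machine k Q) (c : Cfg m) :
    c.out.length ≤ (m.step c).out.length ∧ (m.step c).out.length ≤ c.out.length + 1 := by
  have e : (m.step c).out = c.out ++
    (m.δ c.st (fun i => (c.tape i).cell (c.tape i).head)).2.2.toList := rfl
  rw [e, List.length_append]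
  cases (m.δ c.st (fun i => (c.tape i).cell (c.tape i).head)).2.2 <;> simp

theorem length_mono {k : ℕ} {Q : Type} (m : Machine k Q) (a b : ℕ) :
    (m.conf a).out.length ≤ (m.conf (a + b)).out.length := by
  induction b with
  | zero => exact le_rfl
  | succ b ih =>
    rw [← add_assoc, conf_succ]
    exact ih.trans (length_step m _).1

namespace Cod

variable {k : ℕ} {Q : Type} {m : Machine k Q} (C : Cod m)

/-- code of the last letter -/
def lc (l : List Q) : ℕ := C.oq l.getLast?

/-- code of a tape -/
def tc (R : ℕ) (c : Cfg m) (i : ℕ) : ℕ :=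
  if h : i < k then digs C.g R (fun j => C.cy ((c.tape ⟨i, h⟩).cell j)) else 0

/-- head position -/
def hc (c : Cfg m) (i : ℕ) : ℕ := if h : i < k then (c.tape ⟨i, h⟩).head else 0

/-- code of a configuration -/
def enc (R : ℕ) (c : Cfg m) : ℕ :=
  ent k (C.cs c.st) c.out.length (C.lc c.out) (C.tc R c) (hc c)

theorem tc_lt (R : ℕ) (c : Cfg m) (i : ℕ) : C.tc R c i < C.g ^ R := by
  have hg := C.g2
  unfold tc
  split_ifs
  · exact digs_lt _ _ _ (fun _ _ => C.cy_lt _)
  · positivity

theorem mvn_od (d : Dir) (h : ℕ) : mvn (od d) h = d.move h := by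
  cases d <;> simp [mvn, od, Dir.move]

theorem stepN_enc {X l R : ℕ} {c : Cfg m} (hX : C.g ^ R ≤ X) (hl : c.out.length ≤ l)
    (h1 : ∀ i, (c.tape i).head < R) (h2 : ∀ i, ((m.step c).tape i).head < R) :
    C.stepN X l (C.enc R c) = C.enc R (m.step c) := by
  have hg := C.g2
  have hg0 : 0 < C.g := by omega
  have hdig : ∀ i : Fin k, dg C.g (C.tc R c i) (c.tape i).head =
      C.cy ((c.tape i).cell (c.tape i).head) := by
    intro i
    unfold tc
    rw [dif_pos i.2]
    exact dg_digs C.g R hg0 (fun j => C.cy ((c.tape i).cell j)) (fun _ _ => C.cy_lt _) _ (h1 i)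
  have hidx : C.idx (C.enc R c) = Nat.pair (C.cs c.st) (pk k (fun i => if h : i < k then
      C.cy ((c.tape ⟨i, h⟩).cell (c.tape ⟨i, h⟩).head) else 0)) := by
    unfold idx enc
    rw [aS_ent]
    congr 1
    refine pk_congr _ _ _ fun i hi => ?_
    rw [aT_ent _ _ _ _ _ _ hi, aH_ent _ _ _ _ _ _ hi, dif_pos hi]
    unfold hc
    rw [dif_pos hi]
    exact hdig ⟨i, hi⟩
  have hW : C.idx (C.enc R c) < C.W := by
    rw [hidx]
    refine Nat.lt_succ_of_le (pair_mono (C.cs_lt _).le (pk_mono _ _ _ fun i hi => ?_))
    rw [dif_pos hi]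
    exact (C.cy_lt _).le
  have hres : C.res (C.idx (C.enc R c)) =
      m.δ c.st (fun i => (c.tape i).cell (c.tape i).head) := by
    unfold res
    rw [hidx, Nat.unpair_pair, C.ds_cs]
    congr 1
    funext i
    simp only
    rw [up_pk k _ i i.2, dif_pos i.2, C.dy_cy]
  have htab : ∀ F : ℕ → ℕ, C.tab F (C.idx (C.enc R c)) = F (C.idx (C.enc R c)) := fun F =>
    if_pos hW
  have haN : aN (C.enc R c) = c.out.length := aN_ent _ _ _ _ _ _
  have haA : aA (C.enc R c) = C.lc c.out := aA_ent _ _ _ _ _ _
  have hout : (m.step c).out = c.out ++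
    (m.δ c.st (fun i => (c.tape i).cell (c.tape i).head)).2.2.toList := rfl
  have hpow : ∀ h, h < R → powT X C.g h = C.g ^ h := fun h hh =>
    powT_eq X C.g h hg0 ((Nat.pow_le_pow_right hg0 hh.le).trans hX)
  have e1 : C.f1 (C.idx (C.enc R c)) =
      on (m.δ c.st (fun i => (c.tape i).cell (c.tape i).head)).2.2 := by
    unfold f1
    rw [hres]
  have e2 : C.f2 (C.idx (C.enc R c)) =
      C.oq (m.δ c.st (fun i => (c.tape i).cell (c.tape i).head)).2.2 := by
    unfold f2
    rw [hres]
  unfold stepN
  rw [if_neg (by rw [haN]; omega)]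
  show _ = ent k (C.cs (m.step c).st) (m.step c).out.length (C.lc (m.step c).out)
    (C.tc R (m.step c)) (hc (m.step c))
  refine ent_congr ?_ ?_ ?_ ?_ ?_
  · rw [htab]
    unfold f0
    rw [hres]
    rfl
  · rw [htab, e1, haN, hout, List.length_append]
    cases (m.δ c.st (fun i => (c.tape i).cell (c.tape i).head)).2.2 <;> simp [on]
  · rw [htab, htab, e1, e2, haA, hout]
    cases (m.δ c.st (fun i => (c.tape i).cell (c.tape i).head)).2.2 with
    | none =>
      have : C.lc c.out ≤ C.n0 := C.oq_le _
      simp [on, this]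
    | some q => simp [on, lc]
  · intro i hi
    have e3 : aT i (C.enc R c) = C.tc R c i := aT_ent _ _ _ _ _ _ hi
    have e4 : aH i (C.enc R c) = (c.tape ⟨i, hi⟩).head := by
      refine (aH_ent _ _ _ _ _ _ hi).trans ?_
      unfold hc
      rw [dif_pos hi]
    have e5 : C.fT i (C.idx (C.enc R c)) =
        C.cy ((m.δ c.st (fun i => (c.tape i).cell (c.tape i).head)).2.1 ⟨i, hi⟩).1 := by
      unfold fT
      rw [dif_pos hi, hres]
    rw [htab, e3, e4, e5, hpow _ (h1 _), hdig ⟨i, hi⟩]
    have e6 : C.tc R (m.step c) i = C.tc R c i -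
        C.cy ((c.tape ⟨i, hi⟩).cell (c.tape ⟨i, hi⟩).head) * C.g ^ (c.tape ⟨i, hi⟩).head +
        C.cy ((m.δ c.st (fun i => (c.tape i).cell (c.tape i).head)).2.1 ⟨i, hi⟩).1 *
          C.g ^ (c.tape ⟨i, hi⟩).head := by
      unfold tc
      rw [dif_pos hi, dif_pos hi]
      have e7 := digs_upd (g := C.g) (R := R) (F := fun j => C.cy ((c.tape ⟨i, hi⟩).cell j))
        (F' := fun j => C.cy (((m.step c).tape ⟨i, hi⟩).cell j)) (h1 ⟨i, hi⟩) (by
          intro j hj
          show C.cy (Function.update (c.tape ⟨i, hi⟩).cell (c.tape ⟨i, hi⟩).head _ j) = _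
          rw [Function.update_of_ne hj])
      have e8 : ((m.step c).tape ⟨i, hi⟩).cell (c.tape ⟨i, hi⟩).head =
          ((m.δ c.st (fun i => (c.tape i).cell (c.tape i).head)).2.1 ⟨i, hi⟩).1 :=
        Function.update_self _ _ _
      rw [e8] at e7
      exact e7
    rw [← e6]
    exact min_eq_right ((C.tc_lt R _ i).le.trans hX)
  · intro i hi
    have e4 : aH i (C.enc R c) = (c.tape ⟨i, hi⟩).head := by
      refine (aH_ent _ _ _ _ _ _ hi).trans ?_
      unfold hc
      rw [dif_pos hi]
    have e5 : C.fD i (C.idx (C.enc R c)) =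
        od ((m.δ c.st (fun i => (c.tape i).cell (c.tape i).head)).2.1 ⟨i, hi⟩).2 := by
      unfold fD
      rw [dif_pos hi, hres]
    have e6 : hc (m.step c) i = ((m.step c).tape ⟨i, hi⟩).head := by
      unfold hc
      rw [dif_pos hi]
    have e7 : ((m.step c).tape ⟨i, hi⟩).head =
      ((m.δ c.st (fun i => (c.tape i).cell (c.tape i).head)).2.1 ⟨i, hi⟩).2.move
        (c.tape ⟨i, hi⟩).head := rfl
    rw [htab, e4, e5, mvn_od, ← e7, e6]
    refine min_eq_right (((h2 ⟨i, hi⟩).le.trans ?_).trans hX)
    exact (Nat.lt_pow_self (by omega)).le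

theorem enc_init (R : ℕ) : C.enc R m.init = C.z0 := by
  unfold enc z0
  refine ent_congr rfl rfl rfl ?_ ?_
  · intro i hi
    unfold tc
    rw [dif_pos hi]
    refine Finset.sum_eq_zero fun j _ => ?_
    show C.cy m.blank * _ = 0
    rw [C.cy_blank, zero_mul]
  · intro i hi
    unfold hc
    rw [dif_pos hi]
    rfl

theorem simN_eq {X l R T : ℕ} (hX : C.g ^ R ≤ X) (h : ∀ t < T, (m.conf t).out.length ≤ l)
    (hh : ∀ t ≤ T, ∀ i, ((m.conf t).tape i).head < R) :
    ∀ t ≤ T, C.simN X l t = C.enc R (m.conf t) := by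
  intro t
  induction t with
  | zero => intro _; exact (C.enc_init R).symm
  | succ t ih =>
    intro ht
    show C.stepN X l (C.simN X l t) = _
    rw [ih (by omega), conf_succ]
    refine C.stepN_enc hX (h t (by omega)) (hh t (by omega)) ?_
    rw [← conf_succ]
    exact hh (t + 1) ht

theorem simN_frozen {X l R T : ℕ} (hX : C.g ^ R ≤ X) (h : ∀ t < T, (m.conf t).out.length ≤ l)
    (hh : ∀ t ≤ T, ∀ i, ((m.conf t).tape i).head < R) (hT : l < (m.conf T).out.length) :
    ∀ j, C.simN X l (T + j) = C.enc R (m.conf T) := by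
  intro j
  induction j with
  | zero => exact C.simN_eq hX h hh T le_rfl
  | succ j ih =>
    show C.stepN X l (C.simN X l (T + j)) = _
    rw [ih]
    unfold stepN
    rw [if_pos]
    have : aN (C.enc R (m.conf T)) = (m.conf T).out.length := aN_ent _ _ _ _ _ _
    rw [this]
    exact hT

/-- no repetition -/
theorem T_le {v : ℕ → Q} (hgen : m.Generates v) {l R : ℕ}
    (hh : ∀ t ≤ m.T (l + 1), ∀ i, ((m.conf t).tape i).head < R)
    (hb : ∀ t ≤ m.T (l + 1), ∀ i, ∀ j, R ≤ j → ((m.conf t).tape i).cell j = m.blank) :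
    m.T (l + 1) ≤ (l + 1) * (C.ns * (C.g ^ R * R) ^ k) := by
  classical
  have hg := C.g2
  have hg0 : 0 < C.g := by omega
  have hlt : ∀ t < m.T (l + 1), (m.conf t).out.length ≤ l := by
    intro t ht
    have h1 := Nat.notMem_of_lt_sInf (s := {t | l + 1 ≤ (m.conf t).out.length}) ht
    have h2 : ¬ (l + 1 ≤ (m.conf t).out.length) := h1
    omega
  have key : ∀ t t', t < t' → t' < m.T (l + 1) → (m.conf t).out.length = (m.conf t').out.length →
      C.cs (m.conf t).st = C.cs (m.conf t').st →
      (∀ i : Fin k, C.tc R (m.conf t) i = C.tc R (m.conf t') i) →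
      (∀ i : Fin k, hc (m.conf t) i = hc (m.conf t') i) → False := by
    intro t t' htt ht' hlen hst htc hhc
    have hconf : m.conf t = m.conf t' := by
      have e1 : (m.conf t).st = (m.conf t').st := by
        rw [← C.ds_cs (m.conf t).st, ← C.ds_cs (m.conf t').st, hst]
      have e2 : (m.conf t).out = (m.conf t').out := by
        refine List.ext_getElem hlen fun i h1 h2 => ?_
        rw [hgen.1 t i h1, hgen.1 t' i h2]
      have e3 : (m.conf t).tape = (m.conf t').tape := by
        funext i
        have e4 : ((m.conf t).tape i).head = ((m.conf t').tape i).head := by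
          have := hhc i
          unfold hc at this
          rw [dif_pos i.2, dif_pos i.2] at this
          exact this
        have e5 : ((m.conf t).tape i).cell = ((m.conf t').tape i).cell := by
          funext j
          rcases lt_or_ge j R with hj | hj
          · have h3 := htc i
            unfold tc at h3
            rw [dif_pos i.2, dif_pos i.2] at h3
            have h4 := dg_digs C.g R hg0 (fun j => C.cy (((m.conf t).tape i).cell j))
              (fun _ _ => C.cy_lt _) j hj
            have h5 := dg_digs C.g R hg0 (fun j => C.cy (((m.conf t').tape i).cell j))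
              (fun _ _ => C.cy_lt _) j hj
            have h6 : C.cy (((m.conf t).tape i).cell j) = C.cy (((m.conf t').tape i).cell j) :=
              (h4.symm.trans (congrArg (fun x => dg C.g x j) h3)).trans h5
            rw [← C.dy_cy (((m.conf t).tape i).cell j), h6, C.dy_cy]
          · rw [hb t (by omega) i j hj, hb t' (by omega) i j hj]
        cases h7 : (m.conf t).tape i with
        | mk c1 d1 =>
          cases h8 : (m.conf t').tape i with
          | mk c2 d2 =>
            rw [h7, h8] at e4 e5
            simp only at e4 e5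
            rw [e4, e5]
      cases h7 : m.conf t with
      | mk c1 d1 o1 =>
        cases h8 : m.conf t' with
        | mk c2 d2 o2 =>
          rw [h7, h8] at e1 e2 e3
          simp only at e1 e2 e3
          rw [e1, e2, e3]
    obtain ⟨p, hp, rfl⟩ : ∃ p, 0 < p ∧ t' = t + p := ⟨t' - t, by omega, by omega⟩
    have hper : ∀ n, m.conf (t + n * p) = m.conf t := by
      intro n
      induction n with
      | zero => rw [zero_mul, add_zero]
      | succ n ih =>
        have e9 : t + (n + 1) * p = (t + p) + n * p := by ring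
        rw [e9, conf_add, ← hconf, ← conf_add, ih]
    obtain ⟨s, hs⟩ := hgen.2 (l + 1)
    have e10 : s ≤ t + s * p := by nlinarith
    obtain ⟨u, hu⟩ := Nat.exists_eq_add_of_le e10
    have e11 := length_mono m s u
    rw [← hu, hper s] at e11
    have := hlt t (by omega)
    omega
  have hcard : m.T (l + 1) ≤ (Finset.range (l + 1) ×ˢ (Finset.range C.ns ×ˢ
      Fintype.piFinset (fun _ : Fin k => Finset.range (C.g ^ R) ×ˢ Finset.range R))).card := by
    have h1 : (Finset.range (m.T (l + 1))).card ≤ _ := Finset.card_le_card_of_injOn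
      (s := Finset.range (m.T (l + 1)))
      (t := Finset.range (l + 1) ×ˢ (Finset.range C.ns ×ˢ
        Fintype.piFinset (fun _ : Fin k => Finset.range (C.g ^ R) ×ˢ Finset.range R)))
      (fun t => ((m.conf t).out.length, C.cs (m.conf t).st,
        fun i : Fin k => (C.tc R (m.conf t) i, hc (m.conf t) i))) (by
        intro t ht
        rw [Finset.mem_coe, Finset.mem_range] at ht
        rw [Finset.mem_coe, Finset.mem_product, Finset.mem_product, Fintype.mem_piFinset]
        refine ⟨Finset.mem_range.2 (Nat.lt_succ_of_le (hlt t ht)),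
          Finset.mem_range.2 (C.cs_lt _), fun i => ?_⟩
        rw [Finset.mem_product]
        refine ⟨Finset.mem_range.2 (C.tc_lt R _ _), Finset.mem_range.2 ?_⟩
        show hc (m.conf t) i < R
        unfold hc
        rw [dif_pos i.2]
        exact hh t ht.le i) (by
        intro t ht t' ht' heq
        rw [Finset.mem_coe, Finset.mem_range] at ht ht'
        have q1 := (Prod.ext_iff.1 heq).1
        have q2 := (Prod.ext_iff.1 (Prod.ext_iff.1 heq).2).1
        have q3 := (Prod.ext_iff.1 (Prod.ext_iff.1 heq).2).2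
        simp only at q1 q2 q3
        by_contra hne
        rcases lt_or_gt_of_ne hne with h | h
        · exact key t t' h ht' q1 q2 (fun i => (Prod.ext_iff.1 (congrFun q3 i)).1)
            (fun i => (Prod.ext_iff.1 (congrFun q3 i)).2)
        · exact key t' t h ht q1.symm q2.symm
            (fun i => (Prod.ext_iff.1 (congrFun q3 i)).1.symm)
            (fun i => (Prod.ext_iff.1 (congrFun q3 i)).2.symm))
    rwa [Finset.card_range] at h1
  refine hcard.trans (le_of_eq ?_)
  rw [Finset.card_product, Finset.card_product, Fintype.card_piFinset, Finset.card_range,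
    Finset.card_range]
  simp [Finset.card_product]

end Cod

end Pool.Agent.TH740.RM3
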