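import Pool.Agent.TH740.RM3.Mach2

/-!
The letters of a word generated by a machine are computed by an `LS` function (job 5474).
-/

set_option autoImplicit false

namespace Pool.Agent.TH740.RM3

open Pool.Agent.H584R2.Dg Pool.Agent.W614.Dg Pool.Agent.H539R2 Pool.Agent.TH381.RM

theorem exists_cod {k : ℕ} {Q : Type} (m : Machine k Q) (cq : Q → ℕ) (n0 : ℕ)
    (hcq : ∀ q, cq q < n0) : ∃ C : Cod m, C.cq = cq ∧ C.n0 = n0 := by
  classical
  have := m.finSt
  have := m.finSym
  obtain ⟨ns, ⟨eS⟩⟩ := Finite.exists_equiv_fin m.St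
  obtain ⟨ny, ⟨eY⟩⟩ := Finite.exists_equiv_fin m.Sym
  refine ⟨{
    ns := ns
    g := ny + 2
    n0 := n0
    cs := fun s => (eS s : ℕ)
    ds := fun x => if h : x < ns then eS.symm ⟨x, h⟩ else m.start
    cy := fun x => if x = m.blank then 0 else (eY x : ℕ) + 1
    dy := fun x => if h : 0 < x ∧ x - 1 < ny then eY.symm ⟨x - 1, h.2⟩ else m.blank
    cq := cq
    cs_lt := fun s => (eS s).2
    ds_cs := ?_
    g2 := by omega
    cy_lt := ?_
    dy_cy := ?_
    cy_blank := if_pos rfl
    cq_lt := hcq }, rfl, rfl⟩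
  · intro s
    rw [dif_pos (eS s).2]
    exact eS.symm_apply_apply s
  · intro x
    split_ifs
    · omega
    · have := (eY x).2
      omega
  · intro x
    by_cases h : x = m.blank
    · simp [h]
    · simp only [if_neg h]
      rw [dif_pos ⟨Nat.succ_pos _, by rw [Nat.add_sub_cancel]; exact (eY x).2⟩]
      have e1 : (⟨(eY x : ℕ) + 1 - 1, by rw [Nat.add_sub_cancel]; exact (eY x).2⟩ : Fin ny) =
          eY x := Fin.ext (Nat.add_sub_cancel _ _)
      rw [e1]
      exact eY.symm_apply_apply x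

theorem le_of_log {a X : ℕ} (ha : 0 < a) (hX : 0 < X) (h : Real.log a ≤ Real.log X) : a ≤ X := by
  have h1 : (a : ℝ) ≤ X :=
    (Real.log_le_log_iff (by exact_mod_cast ha) (by exact_mod_cast hX)).1 h
  exact_mod_cast h1

theorem log_le_nat {a : ℕ} : Real.log a ≤ a := by
  rcases Nat.eq_zero_or_pos a with h | h
  · subst h; simp
  · have h1 : (0 : ℝ) < a := by exact_mod_cast h
    have := Real.log_le_sub_one_of_pos h1
    linarith

theorem last_of {Q : Type} (L : List Q) (v : ℕ → Q) (l : ℕ) (hlen : L.length = l + 1)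
    (hL : IsPre L v) : L.getLast? = some (v l) := by
  have h0 : l < L.length := by omega
  rw [List.getLast?_eq_getElem?, hlen, Nat.add_sub_cancel, ← hL l h0]
  exact List.getElem?_eq_getElem h0

/-- MACH -/
theorem mach : Pool.Agent.TH381.RM3.SMach := by
  intro Q _ k m v cq n0 hcq hgen
  obtain ⟨C, hC1, hC2⟩ := exists_cod m cq n0 hcq
  have hg := C.g2
  have hg0 : 0 < C.g := by omega
  refine ⟨1 + C.ns + 2 * k * C.g + C.g, C.sg, C.LS_sg, fun X l => hC2 ▸ C.sg_le X l, ?_⟩
  intro X l r hr hsp hA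
  have hL : 0 ≤ Real.log ((l : ℝ) + 1) := Real.log_nonneg (by
    have : (0 : ℝ) ≤ l := Nat.cast_nonneg l
    linarith)
  set R : ℕ := ⌈r⌉₊ with hR
  have hR1 : (R : ℝ) ≤ r + 1 := (Nat.ceil_lt_add_one hr).le
  have hk0 : (0 : ℝ) ≤ k := Nat.cast_nonneg k
  have hgR : (0 : ℝ) < C.g := by exact_mod_cast hg0
  have hns0 : (0 : ℝ) ≤ C.ns := Nat.cast_nonneg _
  have hA' : (1 + C.ns + 2 * k * C.g + C.g : ℝ) * (r + Real.log ((l : ℝ) + 1) + 1) ≤
      Real.log X := by
    refine le_trans (le_of_eq ?_) hA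
    push_cast
    ring
  have hX0 : 0 < X := by
    rcases Nat.eq_zero_or_pos X with h | h
    · exfalso
      rw [h, Nat.cast_zero, Real.log_zero] at hA'
      have h1 : (0 : ℝ) < (1 + C.ns + 2 * k * C.g + C.g : ℝ) *
          (r + Real.log ((l : ℝ) + 1) + 1) := by positivity
      linarith
    · exact h
  have hnspos : 0 < C.ns := lt_of_le_of_lt (Nat.zero_le _) (C.cs_lt m.start)
  -- space
  have hh : ∀ t ≤ m.T (l + 1), ∀ i, ((m.conf t).tape i).head < R := fun t ht i =>
    Nat.lt_ceil.2 (hsp t ht i).1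
  have hb : ∀ t ≤ m.T (l + 1), ∀ i, ∀ j, R ≤ j → ((m.conf t).tape i).cell j = m.blank :=
    fun t ht i j hj => (hsp t ht i).2 j (Nat.ceil_le.1 hj)
  have hpowR : C.g ^ R ≤ X := by
    refine le_of_log (by positivity) hX0 ?_
    rw [Nat.cast_pow, Real.log_pow]
    refine le_trans ?_ hA'
    have h1 : Real.log (C.g : ℝ) ≤ C.g := log_le_nat
    have h2 : (R : ℝ) * Real.log C.g ≤ (r + 1) * C.g :=
      mul_le_mul hR1 h1 (Real.log_nonneg (by exact_mod_cast (by omega : 1 ≤ C.g))) (by positivity)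
    have h3 : (0 : ℝ) ≤ (1 + C.ns + 2 * k * C.g) * (r + Real.log ((l : ℝ) + 1) + 1) := by
      positivity
    nlinarith
  have hT : m.T (l + 1) ≤ X := by
    refine (C.T_le hgen hh hb).trans ?_
    have h0 : (l + 1) * (C.ns * (C.g ^ R * R) ^ k) ≤
        (l + 1) * (C.ns * (C.g ^ R * C.g ^ R) ^ k) := by
      refine Nat.mul_le_mul_left _ (Nat.mul_le_mul_left _ (Nat.pow_le_pow_left ?_ _))
      exact Nat.mul_le_mul_left _ (Nat.lt_pow_self (by omega)).le
    refine h0.trans (le_of_log (by positivity) hX0 ?_)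
    rw [← pow_add, ← pow_mul]
    push_cast
    rw [Real.log_mul (by positivity) (by positivity), Real.log_mul (by positivity) (by positivity),
      Real.log_pow]
    refine le_trans ?_ hA'
    have h1 : Real.log (C.g : ℝ) ≤ C.g := log_le_nat
    have h2 : Real.log (C.ns : ℝ) ≤ C.ns := log_le_nat
    have h3 : (((R + R) * k : ℕ) : ℝ) * Real.log C.g ≤ (2 * (r + 1) * k) * C.g := by
      refine mul_le_mul ?_ h1
        (Real.log_nonneg (by exact_mod_cast (by omega : 1 ≤ C.g))) (by positivity)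
      push_cast
      nlinarith
    have h4 : (0 : ℝ) ≤ (C.ns : ℝ) * (r + Real.log ((l : ℝ) + 1)) := by positivity
    have h5 : (0 : ℝ) ≤ 2 * k * C.g * Real.log ((l : ℝ) + 1) := by positivity
    have h6 : (0 : ℝ) ≤ C.g * (r + Real.log ((l : ℝ) + 1) + 1) := by positivity
    nlinarith
  -- the last letter
  have hne : {t | l + 1 ≤ (m.conf t).out.length}.Nonempty := hgen.2 (l + 1)
  have hlt : ∀ t < m.T (l + 1), (m.conf t).out.length ≤ l := by
    intro t ht
    have h1 := Nat.notMem_of_lt_sInf (s := {t | l + 1 ≤ (m.conf t).out.length}) ht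
    have h2 : ¬ (l + 1 ≤ (m.conf t).out.length) := h1
    omega
  have hge : l + 1 ≤ (m.conf (m.T (l + 1))).out.length := Nat.sInf_mem hne
  have hlen : (m.conf (m.T (l + 1))).out.length = l + 1 := by
    cases hTT : m.T (l + 1) with
    | zero =>
      rw [hTT] at hge
      exact absurd hge (by simp [Machine.conf, Machine.init])
    | succ T' =>
      have h1 := hlt T' (by omega)
      have h2 := (length_step m (m.conf T')).2
      rw [hTT] at hge
      rw [conf_succ] at hge ⊢
      omega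
  obtain ⟨j, hj⟩ := Nat.exists_eq_add_of_le hT
  have hfin := C.simN_frozen (l := l) hpowR hlt hh (by omega) j
  rw [← hj] at hfin
  have haA : aA (C.enc R (m.conf (m.T (l + 1)))) = C.lc (m.conf (m.T (l + 1))).out :=
    aA_ent _ _ _ _ _ _
  have hlast : (m.conf (m.T (l + 1))).out.getLast? = some (v l) :=
    last_of _ v l hlen (hgen.1 (m.T (l + 1)))
  show C.sg X l = cq (v l)
  unfold Cod.sg
  rw [hfin, haA]
  unfold Cod.lc
  rw [hlast]
  show min C.n0 (C.cq (v l)) = cq (v l)
  rw [min_eq_right (C.cq_lt _).le, hC1]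

end Pool.Agent.TH740.RM3
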